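import Pool.Agent.H98.KS.Targets3

/-!
# The sum is small for large `X |β|` (module BLK)
Periodicity modulo `q` and summation by parts.
-/

open scoped BigOperators

namespace Pool.Agent.H31.KS

open Pool.Agent.H98.KS

private lemma ee_add (x y : ℝ) : ee (x + y) = ee x * ee y := by
  unfold ee
  rw [← Complex.exp_add]
  congr 1
  push_cast
  ring

private lemma ee_int (m : ℤ) : ee m = 1 := by
  unfold ee
  rw [Complex.exp_eq_one_iff]
  exact ⟨m, by push_cast; ring⟩

private lemma ee_eq (x : ℝ) : ee x = Complex.exp (Complex.I * ((2 * Real.pi * x : ℝ) : ℂ)) := by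
  unfold ee
  congr 1
  push_cast
  ring

private lemma norm_ee (x : ℝ) : ‖ee x‖ = 1 := by
  rw [ee_eq, mul_comm]
  exact Complex.norm_exp_ofReal_mul_I _

private lemma lip_ee (x y : ℝ) : ‖ee x - ee y‖ ≤ 2 * Real.pi * |x - y| := by
  have h1 : ee x - ee y = ee y * (ee (x - y) - 1) := by
    rw [mul_sub, ← ee_add, mul_one]
    congr 2
    ring
  rw [h1, norm_mul, norm_ee, one_mul, ee_eq]
  refine Real.norm_exp_I_mul_ofReal_sub_one_le.trans (le_of_eq ?_)
  rw [Real.norm_eq_abs, abs_mul, abs_of_pos (by positivity : (0 : ℝ) < 2 * Real.pi)]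

private lemma low_ee (x : ℝ) (hx : |x| ≤ 1 / 2) : 4 * |x| ≤ ‖1 - ee x‖ := by
  rw [norm_sub_rev, ee_eq, Complex.norm_exp_I_mul_ofReal_sub_one]
  have h1 : |2 * Real.pi * x / 2| = Real.pi * |x| := by
    rw [show 2 * Real.pi * x / 2 = Real.pi * x by ring, abs_mul, abs_of_pos Real.pi_pos]
  have h2 := Real.mul_abs_le_abs_sin (x := 2 * Real.pi * x / 2) (by
    rw [h1]
    have := mul_le_mul_of_nonneg_left hx Real.pi_pos.le
    linarith)
  rw [h1] at h2
  rw [Real.norm_eq_abs, abs_mul, abs_of_pos (by norm_num : (0 : ℝ) < 2)]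
  have h3 : 2 / Real.pi * (Real.pi * |x|) = 2 * |x| := by
    field_simp
  rw [h3] at h2
  linarith

/-- sums of a function with `c (i + q) = c i * w` -/
private lemma per_sum (c : ℕ → ℂ) (w : ℂ) (q N : ℕ) (hc : ∀ i, ‖c i‖ ≤ 1)
    (hq : ∀ i, c (q + i) = c i * w) :
    ‖1 - w‖ * ‖∑ i ∈ Finset.range N, c i‖ ≤ 2 * q := by
  have h1 : (1 - w) * ∑ i ∈ Finset.range N, c i =
      ∑ i ∈ Finset.range q, c i - ∑ i ∈ Finset.range q, c (N + i) := by
    have e1 := Finset.sum_range_add c N q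
    have e2 := Finset.sum_range_add c q N
    rw [add_comm q N, e1] at e2
    have e3 : ∑ x ∈ Finset.range N, c (q + x) = (∑ i ∈ Finset.range N, c i) * w := by
      rw [Finset.sum_mul]
      exact Finset.sum_congr rfl fun i _ => hq i
    rw [e3] at e2
    linear_combination e2
  rw [← norm_mul, h1]
  refine (norm_sub_le _ _).trans ?_
  have h2 : ‖∑ i ∈ Finset.range q, c i‖ ≤ q := by
    refine (norm_sum_le _ _).trans ?_
    refine (Finset.sum_le_sum fun i _ => hc i).trans ?_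
    simp
  have h3 : ‖∑ i ∈ Finset.range q, c (N + i)‖ ≤ q := by
    refine (norm_sum_le _ _).trans ?_
    refine (Finset.sum_le_sum fun i _ => hc (N + i)).trans ?_
    simp
  linarith

theorem ks_BLK : T_BLK := by
  intro k hk
  refine ⟨1 + 2 * Real.pi, by positivity, ?_⟩
  intro X q a b κ β hq hX hbig hXβ hβ
  have hXR : (1 : ℝ) ≤ X := by exact_mod_cast hX
  have hX0 : (0 : ℝ) < X := by linarith
  have hqR : (1 : ℝ) ≤ q := by exact_mod_cast hq
  have hq0 : (0 : ℝ) < q := by linarith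
  have hβ0 : 0 < |β| := by
    have h1 : 0 < (X : ℝ) * |β| := lt_of_lt_of_le (Real.rpow_pos_of_pos hX0 _) hXβ
    exact (mul_pos_iff_of_pos_left hX0).1 h1
  -- the periodic part and the smooth part
  set c : ℕ → ℂ := fun i => ee (((a : ℝ) * ((i : ℝ) + 1) ^ k - b * ((i : ℝ) + 1)) / q -
    β * ((i : ℝ) + 1)) with hc
  set f : ℕ → ℂ := fun i => ee (κ * (((i : ℝ) + 1) / X) ^ k) with hf
  have hsum : Hs k X (th k X a q κ) ((b : ℝ) / q + β) = ∑ i ∈ Finset.range X, f i • c i := by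
    unfold Hs
    have h1 : Finset.Icc 1 X = Finset.Ico 1 (X + 1) := by
      ext n
      simp only [Finset.mem_Icc, Finset.mem_Ico]
      omega
    rw [h1, Finset.sum_Ico_eq_sum_range, Nat.add_sub_cancel]
    refine Finset.sum_congr rfl fun i _ => ?_
    rw [smul_eq_mul, hf, hc]
    simp only
    rw [← ee_add]
    congr 1
    unfold th
    rw [div_pow]
    push_cast
    ring
  have hcn : ∀ i, ‖c i‖ ≤ 1 := fun i => (norm_ee _).le
  have hcq : ∀ i, c (q + i) = c i * ee (-(q * β)) := by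
    intro i
    have hdvd : (q : ℤ) ∣ ((q : ℤ) + i + 1) ^ k - ((i : ℤ) + 1) ^ k := by
      have h1 := sub_dvd_pow_sub_pow ((q : ℤ) + i + 1) ((i : ℤ) + 1) k
      have h2 : ((q : ℤ) + i + 1) - ((i : ℤ) + 1) = q := by ring
      rwa [h2] at h1
    obtain ⟨v, hv⟩ := hdvd
    have hv' : ((q : ℝ) + i + 1) ^ k = ((i : ℝ) + 1) ^ k + q * v := by
      have : (((q : ℤ) + i + 1) ^ k : ℤ) = ((i : ℤ) + 1) ^ k + q * v := by linarith
      exact_mod_cast this
    rw [hc]
    simp only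
    have h3 : ((a : ℝ) * (((q + i : ℕ) : ℝ) + 1) ^ k - b * (((q + i : ℕ) : ℝ) + 1)) / q -
        β * (((q + i : ℕ) : ℝ) + 1) =
        ((a : ℝ) * ((i : ℝ) + 1) ^ k - b * ((i : ℝ) + 1)) / q - β * ((i : ℝ) + 1) +
          -(q * β) + ((a * v - b : ℤ) : ℝ) := by
      have h4 : (((q + i : ℕ) : ℝ) + 1) ^ k = ((i : ℝ) + 1) ^ k + q * v := by
        rw [← hv']
        push_cast
        ring
      rw [h4]
      push_cast
      field_simp
      ring
    rw [h3, ee_add, ee_add, ee_int, mul_one]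
  -- bound for the sums of `c`
  have hS : ∀ N : ℕ, ‖∑ i ∈ Finset.range N, c i‖ ≤ 1 / (2 * |β|) := by
    intro N
    have h1 := per_sum c (ee (-(q * β))) q N hcn hcq
    have h2 : |(-(q * β) : ℝ)| = q * |β| := by
      rw [abs_neg, abs_mul, abs_of_pos hq0]
    have h3 : (q : ℝ) * |β| ≤ 1 / 2 := by
      have h4 := mul_le_mul_of_nonneg_left hβ hq0.le
      have h5 : (q : ℝ) * (1 / (2 * q)) = 1 / 2 := by field_simp
      linarith
    have h4 := low_ee (-(q * β)) (by rw [h2]; exact h3)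
    rw [h2] at h4
    rw [le_div_iff₀ (by positivity)]
    have h5 : 4 * ((q : ℝ) * |β|) * ‖∑ i ∈ Finset.range N, c i‖ ≤ 2 * q :=
      (mul_le_mul_of_nonneg_right h4 (norm_nonneg _)).trans h1
    have h6 : (2 * (q : ℝ)) * (‖∑ i ∈ Finset.range N, c i‖ * (2 * |β|)) ≤ 2 * q * 1 := by
      linarith
    exact le_of_mul_le_mul_left h6 (by positivity)
  set M : ℝ := 1 / (2 * |β|) with hM
  have hM0 : 0 < M := by positivity
  -- summation by parts
  have habel : ‖∑ i ∈ Finset.range X, f i • c i‖ ≤ (1 + 2 * Real.pi * |κ|) * M := by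
    rw [Finset.sum_range_by_parts]
    refine (norm_sub_le _ _).trans ?_
    have h1 : ‖f (X - 1) • ∑ i ∈ Finset.range X, c i‖ ≤ M := by
      rw [smul_eq_mul, norm_mul]
      have : ‖f (X - 1)‖ = 1 := norm_ee _
      rw [this, one_mul]
      exact hS X
    have h2 : ‖∑ i ∈ Finset.range (X - 1), (f (i + 1) - f i) • ∑ i ∈ Finset.range (i + 1), c i‖ ≤
        2 * Real.pi * |κ| * M := by
      refine (norm_sum_le _ _).trans ?_
      have h3 : ∀ i ∈ Finset.range (X - 1),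
          ‖(f (i + 1) - f i) • ∑ i ∈ Finset.range (i + 1), c i‖ ≤
          2 * Real.pi * |κ| * M * (((((i + 1 : ℕ) : ℝ) + 1) / X) ^ k -
            (((i : ℝ) + 1) / X) ^ k) := by
        intro i _
        rw [smul_eq_mul, norm_mul]
        have h4 : ‖f (i + 1) - f i‖ ≤ 2 * Real.pi * |κ| * (((((i + 1 : ℕ) : ℝ) + 1) / X) ^ k -
            (((i : ℝ) + 1) / X) ^ k) := by
          refine (lip_ee _ _).trans (le_of_eq ?_)
          rw [← mul_sub, abs_mul, ← mul_assoc]
          congr 1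
          refine abs_of_nonneg (sub_nonneg.2 ?_)
          have h6 : ((i : ℝ) + 1) / X ≤ (((i + 1 : ℕ) : ℝ) + 1) / X := by
            push_cast
            gcongr
            linarith
          exact pow_le_pow_left₀ (by positivity) h6 k
        calc ‖f (i + 1) - f i‖ * ‖∑ i ∈ Finset.range (i + 1), c i‖
            ≤ (2 * Real.pi * |κ| * (((((i + 1 : ℕ) : ℝ) + 1) / X) ^ k -
              (((i : ℝ) + 1) / X) ^ k)) * M :=
              mul_le_mul h4 (hS _) (norm_nonneg _) ((norm_nonneg _).trans h4)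
          _ = _ := by ring
      refine (Finset.sum_le_sum h3).trans ?_
      rw [← Finset.mul_sum, Finset.sum_range_sub (fun i : ℕ => (((i : ℝ) + 1) / X) ^ k)]
      have h5 : ((((X - 1 : ℕ) : ℝ) + 1) / X) ^ k = 1 := by
        have h6 : ((X - 1 : ℕ) : ℝ) + 1 = X := by
          rw [Nat.cast_sub hX]
          push_cast
          ring
        rw [h6, div_self hX0.ne', one_pow]
      rw [h5]
      have h7 : 0 ≤ ((((0 : ℕ) : ℝ) + 1) / X) ^ k := by positivity
      have h8 : 0 ≤ 2 * Real.pi * |κ| * M := by positivity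
      nlinarith
    calc _ ≤ M + 2 * Real.pi * |κ| * M := add_le_add h1 h2
      _ = _ := by ring
  rw [hsum]
  refine habel.trans ?_
  -- numerical conclusion
  have hκ : |κ| ≤ (X : ℝ) ^ ((1 : ℝ) / 20) := hbig.2
  have h1X : 1 ≤ (X : ℝ) ^ ((1 : ℝ) / 20) := Real.one_le_rpow hXR (by norm_num)
  have hMb : M ≤ (X : ℝ) ^ (1 - (3 : ℝ) / 20) := by
    rw [hM, div_le_iff₀ (by positivity)]
    have h1 : (X : ℝ) ^ (1 - (3 : ℝ) / 20) * (X : ℝ) ^ ((3 : ℝ) / 20) = X := by
      rw [← Real.rpow_add hX0]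
      norm_num
    have h2 : (X : ℝ) ≤ (X : ℝ) ^ (1 - (3 : ℝ) / 20) * (X * |β|) := by
      calc (X : ℝ) = (X : ℝ) ^ (1 - (3 : ℝ) / 20) * (X : ℝ) ^ ((3 : ℝ) / 20) := h1.symm
        _ ≤ _ := mul_le_mul_of_nonneg_left hXβ (by positivity)
    have h3 : (X : ℝ) * 1 ≤ X * ((X : ℝ) ^ (1 - (3 : ℝ) / 20) * |β|) := by linarith
    have h4 := le_of_mul_le_mul_left h3 hX0
    have h5 : 0 ≤ (X : ℝ) ^ (1 - (3 : ℝ) / 20) * |β| := by positivity
    linarith
  have h2 : 1 + 2 * Real.pi * |κ| ≤ (1 + 2 * Real.pi) * (X : ℝ) ^ ((1 : ℝ) / 20) := by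
    have := mul_le_mul_of_nonneg_left hκ (by positivity : (0 : ℝ) ≤ 2 * Real.pi)
    linarith
  calc (1 + 2 * Real.pi * |κ|) * M ≤
      ((1 + 2 * Real.pi) * (X : ℝ) ^ ((1 : ℝ) / 20)) * (X : ℝ) ^ (1 - (3 : ℝ) / 20) :=
        mul_le_mul h2 hMb hM0.le (by positivity)
    _ = (1 + 2 * Real.pi) * (X : ℝ) ^ ((1 : ℝ) / 20 + (1 - (3 : ℝ) / 20)) := by
        rw [mul_assoc, ← Real.rpow_add hX0]
    _ ≤ (1 + 2 * Real.pi) * (X : ℝ) ^ (1 - (1 : ℝ) / 20) := by
        refine mul_le_mul_of_nonneg_left ?_ (by positivity)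
        exact Real.rpow_le_rpow_of_exponent_le hXR (by norm_num)

end Pool.Agent.H31.KS
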