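import Pool.Agent.H98.KS.Targets3

/-!
# The difference of the two products at one scale (module D1)
-/

open scoped BigOperators

namespace Pool.Agent.H31.KS

open Pool.Agent.H98.KS

private lemma prod_diff {ι : Type*} [DecidableEq ι] (s : Finset ι) (a b : ι → ℂ) (M D : ℝ)
    (hM : 0 ≤ M) (hD : 0 ≤ D) (ha : ∀ i ∈ s, ‖a i‖ ≤ M) (hb : ∀ i ∈ s, ‖b i‖ ≤ M)
    (hab : ∀ i ∈ s, ‖a i - b i‖ ≤ D) :
    ‖∏ i ∈ s, a i - ∏ i ∈ s, b i‖ ≤ s.card * M ^ (s.card - 1) * D := by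
  induction s using Finset.induction_on with
  | empty => simp
  | insert j s hj ih =>
    rw [Finset.prod_insert hj, Finset.prod_insert hj, Finset.card_insert_of_notMem hj]
    have h1 : a j * ∏ i ∈ s, a i - b j * ∏ i ∈ s, b i =
        a j * (∏ i ∈ s, a i - ∏ i ∈ s, b i) + (a j - b j) * ∏ i ∈ s, b i := by ring
    rw [h1]
    refine (norm_add_le _ _).trans ?_
    rw [norm_mul, norm_mul]
    have ih' := ih (fun i hi => ha i (Finset.mem_insert_of_mem hi))
      (fun i hi => hb i (Finset.mem_insert_of_mem hi))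
      (fun i hi => hab i (Finset.mem_insert_of_mem hi))
    have h2 : ‖∏ i ∈ s, b i‖ ≤ M ^ s.card := by
      rw [norm_prod]
      calc ∏ i ∈ s, ‖b i‖ ≤ ∏ _i ∈ s, M := Finset.prod_le_prod (fun _ _ => norm_nonneg _)
            (fun i hi => hb i (Finset.mem_insert_of_mem hi))
        _ = M ^ s.card := by simp
    have h3 : ‖a j‖ * ‖∏ i ∈ s, a i - ∏ i ∈ s, b i‖ ≤ M * (s.card * M ^ (s.card - 1) * D) :=
      mul_le_mul (ha j (Finset.mem_insert_self j s)) ih' (norm_nonneg _) hM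
    have h4 : ‖a j - b j‖ * ‖∏ i ∈ s, b i‖ ≤ D * M ^ s.card :=
      mul_le_mul (hab j (Finset.mem_insert_self j s)) h2 (norm_nonneg _) hD
    have h5 : M * (s.card * M ^ (s.card - 1) * D) = s.card * M ^ s.card * D := by
      rcases Nat.eq_zero_or_pos s.card with h | h
      · rw [h]
        simp
      · have h6 : M ^ s.card = M * M ^ (s.card - 1) := by
          rw [← pow_succ', Nat.sub_add_cancel h]
        rw [h6]
        ring
    rw [Nat.add_sub_cancel]
    push_cast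
    linarith

private lemma prod_one {d : ℕ} (a : Fin d → ℂ) (M : ℝ) (i0 : Fin d) (hM : 0 ≤ M)
    (ha : ∀ i, ‖a i‖ ≤ M) : ‖∏ i, a i‖ ≤ M ^ (d - 1) * ‖a i0‖ := by
  rw [norm_prod, ← Finset.mul_prod_erase Finset.univ _ (Finset.mem_univ i0), mul_comm]
  refine mul_le_mul_of_nonneg_right ?_ (norm_nonneg _)
  calc ∏ i ∈ Finset.univ.erase i0, ‖a i‖ ≤ ∏ _i ∈ Finset.univ.erase i0, M :=
        Finset.prod_le_prod (fun _ _ => norm_nonneg _) (fun i _ => ha i)
    _ = M ^ (d - 1) := by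
        rw [Finset.prod_const, Finset.card_erase_of_mem (Finset.mem_univ i0), Finset.card_univ,
          Fintype.card_fin]

theorem ks_D1 (hSB : T_SB) (hAX : T_AX) (hI1 : T_I1) : T_D1 := by
  intro k Cg hk hGB d hd
  have hCg : 1 ≤ Cg := hGB.1
  obtain ⟨C1, hC1, hSB1⟩ := hSB k Cg hk hGB
  obtain ⟨C2, hC2, hI⟩ := hI1 k hk
  set A : ℝ := C1 + 2 * Cg * C2 with hA
  have hA0 : 0 < A := by positivity
  set E : ℝ := C1 + 30 * Cg * C2 with hE
  have hE0 : 0 < E := by positivity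
  refine ⟨d * A ^ (d - 1) * E + A ^ d, by positivity, ?_⟩
  intro X q a κ v ξ hq hX hcop hbig hv hvgb B hB1 hB2
  have hXR : (1 : ℝ) ≤ X := by exact_mod_cast hX
  have hX0 : (0 : ℝ) < X := by linarith
  have hqR : (1 : ℝ) ≤ q := by exact_mod_cast hq
  have hq0 : (0 : ℝ) < q := by linarith
  set ρ : ℝ := (q : ℝ) ^ (-(1 / (k : ℝ))) with hρ
  have hρ0 : 0 < ρ := Real.rpow_pos_of_pos hq0 _
  have hκ1 : 1 ≤ 1 + |κ| := by linarith [abs_nonneg κ]
  have hκ0 : 0 < 1 + |κ| := by linarith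
  have he0 : 0 ≤ e0 k := by
    unfold e0
    have : (3 : ℝ) ≤ k := by exact_mod_cast hk
    have h2 : 0 ≤ 2 * ((k : ℝ) - 1) := by linarith
    positivity
  set w : ℝ := (1 + |κ|) ^ (-(e0 k)) with hw
  have hw0 : 0 < w := Real.rpow_pos_of_pos hκ0 _
  have hw1 : w ≤ 1 := Real.rpow_le_one_of_one_le_of_nonpos hκ1 (by linarith)
  have hb0 : bb0 k q κ = ρ * w := rfl
  have hbpos : 0 < ρ * w := by positivity
  have hbρ : ρ * w ≤ ρ := by nlinarith
  set x20 : ℝ := (X : ℝ) ^ (-((1 : ℝ) / 20)) with hx20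
  have hx200 : 0 < x20 := Real.rpow_pos_of_pos hX0 _
  -- coordinates
  set b : Fin d → ℤ := fun i => round (q * ξ i) with hb
  set β : Fin d → ℝ := fun i => ξ i - round (q * ξ i) / q with hβ
  have hξ : ∀ i, (b i : ℝ) / q + β i = ξ i := by
    intro i
    rw [hb, hβ]
    simp only
    ring
  have hβ1 : ∀ i, |β i| ≤ 1 / (2 * q) := by
    intro i
    have h1 : |(q : ℝ) * ξ i - round ((q : ℝ) * ξ i)| ≤ 1 / 2 := abs_sub_round _
    have h2 : (q : ℝ) * |β i| = |(q : ℝ) * ξ i - round ((q : ℝ) * ξ i)| := by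
      rw [← abs_of_pos hq0, ← abs_mul, abs_of_pos hq0]
      congr 1
      rw [hβ]
      simp only
      field_simp
    rw [le_div_iff₀ (by positivity)]
    linarith
  set s : Fin d → ℂ := fun i => Ss k X (th k X a q κ) (ξ i) / X with hs
  set u : Fin d → ℂ := fun i => II k κ 0 * aX q (X / q) (ξ i) * v (ξ i) with hu
  have hsn : ∀ i, ‖s i‖ = ‖Ss k X (th k X a q κ) (ξ i)‖ / X := by
    intro i
    rw [hs]
    simp only
    rw [norm_div, Complex.norm_natCast]
  have hS1 : ∀ i, ‖s i‖ ≤ C1 * (ρ * w) := by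
    intro i
    have h1 := (hSB1 X q a (b i) κ (β i) hq hX hcop hbig (hβ1 i)).1
    rw [hξ i] at h1
    rw [hsn i]
    exact h1
  have hS2 : ∀ i, ‖s i - gb k a (b i) q * II k κ 0‖ ≤ C1 * (ρ * (X * |β i|) + x20) := by
    intro i
    have h1 := (hSB1 X q a (b i) κ (β i) hq hX hcop hbig (hβ1 i)).2.1
    rw [hξ i] at h1
    exact h1
  have hS3 : ∀ i, β i ≠ 0 → ‖s i‖ ≤ C1 * (ρ * ((1 + |κ|) / (X * |β i|)) + x20) := by
    intro i hi
    have h1 := (hSB1 X q a (b i) κ (β i) hq hX hcop hbig (hβ1 i)).2.2 hi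
    rw [hξ i] at h1
    rw [hsn i]
    exact h1
  have hAX1 : ∀ i, ‖aX q (X / q) (ξ i)‖ ≤ 1 ∧ ‖aX q (X / q) (ξ i) - 1‖ ≤ 7 * (X * |β i|) ∧
      X * |β i| * ‖aX q (X / q) (ξ i)‖ ≤ 1 := by
    intro i
    have h1 := hAX q X (b i) (β i) hq (hβ1 i)
    rw [hξ i] at h1
    exact h1
  have hII : ‖II k κ 0‖ ≤ C2 * w := hI κ 0
  have hII1 : ‖II k κ 0‖ ≤ C2 := hII.trans (by nlinarith)
  have hU1 : ∀ i, ‖u i‖ ≤ 2 * Cg * C2 * (ρ * w) := by
    intro i
    rw [hu]
    simp only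
    rw [norm_mul, norm_mul]
    have h1 : ‖II k κ 0‖ * ‖aX q (X / q) (ξ i)‖ ≤ C2 * w * 1 :=
      mul_le_mul hII (hAX1 i).1 (norm_nonneg _) (by positivity)
    calc _ ≤ (C2 * w * 1) * (2 * Cg * ρ) := mul_le_mul h1 (hv _) (norm_nonneg _) (by positivity)
      _ = _ := by ring
  have hU2 : ∀ i, ‖u i‖ ≤ 2 * Cg * C2 * ρ * ‖aX q (X / q) (ξ i)‖ := by
    intro i
    rw [hu]
    simp only
    rw [norm_mul, norm_mul]
    have h1 : ‖II k κ 0‖ * ‖aX q (X / q) (ξ i)‖ ≤ C2 * ‖aX q (X / q) (ξ i)‖ :=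
      mul_le_mul_of_nonneg_right hII1 (norm_nonneg _)
    calc _ ≤ (C2 * ‖aX q (X / q) (ξ i)‖) * (2 * Cg * ρ) :=
          mul_le_mul h1 (hv _) (norm_nonneg _) (by positivity)
      _ = _ := by ring
  have hsA : ∀ i, ‖s i‖ ≤ A * (ρ * w) := fun i => (hS1 i).trans
    (mul_le_mul_of_nonneg_right (by rw [hA]; linarith [show 0 ≤ 2 * Cg * C2 by positivity])
      hbpos.le)
  have huA : ∀ i, ‖u i‖ ≤ A * (ρ * w) := fun i => (hU1 i).trans
    (mul_le_mul_of_nonneg_right (by rw [hA]; linarith) hbpos.le)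
  rw [hb0]
  constructor
  · -- small frequencies
    intro hXB
    have hB0 : 0 ≤ B := by
      obtain ⟨i, hi⟩ := hB2
      rw [← hi]
      exact abs_nonneg _
    have hq2 : (q : ℝ) ^ 2 ≤ X := by
      have h1 : (q : ℝ) ^ 2 ≤ ((X : ℝ) ^ ((1 : ℝ) / 20)) ^ 2 := pow_le_pow_left₀ hq0.le hbig.1 2
      have h2 : ((X : ℝ) ^ ((1 : ℝ) / 20)) ^ 2 = (X : ℝ) ^ ((1 : ℝ) / 10) := by
        rw [← Real.rpow_natCast, ← Real.rpow_mul hX0.le]
        norm_num
      have h3 : (X : ℝ) ^ ((1 : ℝ) / 10) ≤ (X : ℝ) ^ (1 : ℝ) :=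
        Real.rpow_le_rpow_of_exponent_le hXR (by norm_num)
      rw [Real.rpow_one] at h3
      linarith
    have hdiff : ∀ i, ‖s i - u i‖ ≤ E * (ρ * (X * B) + x20) := by
      intro i
      have h1 : s i - u i = (s i - gb k a (b i) q * II k κ 0) +
          II k κ 0 * ((gb k a (b i) q - v (ξ i)) - v (ξ i) * (aX q (X / q) (ξ i) - 1)) := by
        rw [hu]
        simp only
        ring
      have h2 : ‖v (ξ i) - gb k a (b i) q‖ ≤ 8 * (q : ℝ) ^ 2 * (2 * Cg * ρ) * |β i| := by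
        have := hvgb (b i) (β i)
        rw [hξ i] at this
        exact this
      have h3 : 8 * (q : ℝ) ^ 2 * (2 * Cg * ρ) * |β i| ≤ 16 * Cg * (ρ * (X * |β i|)) := by
        have h4 : (q : ℝ) ^ 2 * (Cg * ρ * |β i|) ≤ X * (Cg * ρ * |β i|) :=
          mul_le_mul_of_nonneg_right hq2 (by positivity)
        linarith
      have h5 : ‖v (ξ i) * (aX q (X / q) (ξ i) - 1)‖ ≤ 14 * Cg * (ρ * (X * |β i|)) := by
        rw [norm_mul]
        calc _ ≤ (2 * Cg * ρ) * (7 * (X * |β i|)) :=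
              mul_le_mul (hv _) (hAX1 i).2.1 (norm_nonneg _) (by positivity)
          _ = _ := by ring
      have h6 : ‖(gb k a (b i) q - v (ξ i)) - v (ξ i) * (aX q (X / q) (ξ i) - 1)‖ ≤
          30 * Cg * (ρ * (X * |β i|)) := by
        refine (norm_sub_le _ _).trans ?_
        rw [norm_sub_rev (gb k a (b i) q)]
        linarith
      have h7 : ‖II k κ 0 * ((gb k a (b i) q - v (ξ i)) -
          v (ξ i) * (aX q (X / q) (ξ i) - 1))‖ ≤ C2 * (30 * Cg * (ρ * (X * |β i|))) := by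
        rw [norm_mul]
        exact mul_le_mul hII1 h6 (norm_nonneg _) hC2.le
      have h8 : ρ * (X * |β i|) ≤ ρ * (X * B) :=
        mul_le_mul_of_nonneg_left (mul_le_mul_of_nonneg_left (hB1 i) hX0.le) hρ0.le
      rw [h1]
      refine (norm_add_le _ _).trans ?_
      have h9 := hS2 i
      have h10 : C1 * (ρ * (X * |β i|)) ≤ C1 * (ρ * (X * B)) :=
        mul_le_mul_of_nonneg_left h8 hC1.le
      have h11 : 30 * Cg * C2 * (ρ * (X * |β i|)) ≤ 30 * Cg * C2 * (ρ * (X * B)) :=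
        mul_le_mul_of_nonneg_left h8 (by positivity)
      have h12 : 0 ≤ 30 * Cg * C2 * x20 := by positivity
      rw [hE]
      linarith
    have hW0 : 0 ≤ ρ * (X * B) + x20 := by positivity
    have h1 := prod_diff Finset.univ s u (A * (ρ * w)) (E * (ρ * (X * B) + x20)) (by positivity)
      (by positivity) (fun i _ => hsA i) (fun i _ => huA i) (fun i _ => hdiff i)
    rw [Finset.card_univ, Fintype.card_fin] at h1
    refine h1.trans ?_
    rw [mul_pow]
    have h2 : 0 ≤ A ^ d * (ρ * w) ^ (d - 1) * (ρ * (X * B) + x20) := by positivity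
    linarith
  · -- large frequencies
    intro hXB
    obtain ⟨i0, hi0⟩ := hB2
    have hβi : |β i0| = B := hi0
    have hB0 : 0 < B := by
      have : 0 < (X : ℝ) * B := by linarith
      exact (mul_pos_iff_of_pos_left hX0).1 this
    have hβne : β i0 ≠ 0 := by
      intro h
      rw [h, abs_zero] at hβi
      linarith
    have hAd : A ^ d = A ^ (d - 1) * A := by
      rw [← pow_succ, Nat.sub_add_cancel hd]
    have h1 := prod_one s (A * (ρ * w)) i0 (by positivity) hsA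
    have h2 := prod_one u (A * (ρ * w)) i0 (by positivity) huA
    have h3 : ‖∏ i, s i - ∏ i, u i‖ ≤ (A * (ρ * w)) ^ (d - 1) * (‖s i0‖ + ‖u i0‖) := by
      refine (norm_sub_le _ _).trans ?_
      rw [mul_add]
      exact add_le_add h1 h2
    have hpow0 : 0 ≤ (A * (ρ * w)) ^ (d - 1) := by positivity
    have hC : ∀ y : ℝ, 0 ≤ y → (A * (ρ * w)) ^ (d - 1) * (A * y) ≤
        (d * A ^ (d - 1) * E + A ^ d) * (ρ * w) ^ (d - 1) * y := by
      intro y hy
      rw [mul_pow, hAd]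
      have h4 : 0 ≤ d * A ^ (d - 1) * E * (ρ * w) ^ (d - 1) * y := by positivity
      linarith
    constructor
    · refine h3.trans (le_trans ?_ (hC (2 * ρ) (by positivity)))
      refine mul_le_mul_of_nonneg_left ?_ hpow0
      have h4 := hsA i0
      have h5 := huA i0
      have h6 : A * (ρ * w) ≤ A * ρ := mul_le_mul_of_nonneg_left hbρ hA0.le
      linarith
    · refine h3.trans (le_trans ?_ (hC (2 * ρ * ((1 + |κ|) / (X * B)) + x20) (by positivity)))
      refine mul_le_mul_of_nonneg_left ?_ hpow0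
      have h4 := hS3 i0 hβne
      rw [hβi] at h4
      have h5 : ‖aX q (X / q) (ξ i0)‖ ≤ (1 + |κ|) / (X * B) := by
        rw [le_div_iff₀ (by positivity)]
        have h6 := (hAX1 i0).2.2
        rw [hβi] at h6
        linarith
      have h7 := (hU2 i0).trans (mul_le_mul_of_nonneg_left h5
        (by positivity : 0 ≤ 2 * Cg * C2 * ρ))
      set Z : ℝ := (1 + |κ|) / (X * B) with hZ
      have hZ0 : 0 ≤ Z := by positivity
      have h8 : 0 ≤ C1 * (ρ * Z) := by positivity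
      have h9 : 0 ≤ 2 * Cg * C2 * (ρ * Z) := by positivity
      have h10 : 0 ≤ 2 * Cg * C2 * x20 := by positivity
      have h11 : A * (2 * ρ * Z + x20) = 2 * (C1 * (ρ * Z)) + 2 * (2 * Cg * C2 * (ρ * Z)) +
          C1 * x20 + 2 * Cg * C2 * x20 := by
        rw [hA]
        ring
      rw [h11]
      linarith

end Pool.Agent.H31.KS
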