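import Pool.Agent.H98.KS.Targets1

/-!
# The number of equidistant centres is at most an integral (module OR)
-/

open scoped BigOperators
open MeasureTheory

namespace Pool.Agent.H31.KS

open Pool.Agent.H98.KS

private lemma ee_sum {ι : Type*} (s : Finset ι) (f : ι → ℝ) :
    ee (∑ i ∈ s, f i) = ∏ i ∈ s, ee (f i) := by
  unfold ee
  rw [← Complex.exp_sum]
  congr 1
  push_cast
  rw [Finset.mul_sum, Finset.sum_mul]

private lemma ee_int (m : ℤ) : ee m = 1 := by
  unfold ee
  rw [Complex.exp_eq_one_iff]
  exact ⟨m, by push_cast; ring⟩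

private lemma int_ee (m : ℤ) :
    ∫ t in Set.Icc (0 : ℝ) 1, ee (t * m) = if m = 0 then 1 else 0 := by
  rw [integral_Icc_eq_integral_Ioc, ← intervalIntegral.integral_of_le zero_le_one]
  split_ifs with h
  · subst h
    simp [ee]
  · have hc : (2 * Real.pi * m * Complex.I : ℂ) ≠ 0 := by
      have : (m : ℂ) ≠ 0 := by exact_mod_cast h
      have h2 : (Real.pi : ℂ) ≠ 0 := by exact_mod_cast Real.pi_ne_zero
      simp [this, h2, Complex.I_ne_zero]
    have h1 : ∀ t : ℝ, ee (t * m) = Complex.exp ((2 * Real.pi * m * Complex.I : ℂ) * t) := by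
      intro t
      unfold ee
      congr 1
      push_cast
      ring
    simp only [h1]
    rw [integral_exp_mul_complex hc]
    have h2 : Complex.exp ((2 * Real.pi * m * Complex.I : ℂ) * (1 : ℝ)) = 1 := by
      rw [Complex.exp_eq_one_iff]
      exact ⟨m, by push_cast; ring⟩
    rw [h2]
    simp

private lemma int_ee_pi {n : ℕ} (m : Fin n → ℤ) :
    ∫ τ in Set.Icc (0 : Fin n → ℝ) 1, ee (∑ j, τ j * m j) = if (∀ j, m j = 0) then 1 else 0 := by
  have h1 : (volume : Measure (Fin n → ℝ)).restrict (Set.Icc (0 : Fin n → ℝ) 1) =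
      Measure.pi (fun _ : Fin n => (volume : Measure ℝ).restrict (Set.Icc (0 : ℝ) 1)) := by
    rw [← Set.pi_univ_Icc, volume_pi, Measure.restrict_pi_pi]
    rfl
  rw [h1]
  simp only [ee_sum]
  rw [integral_fintype_prod_eq_prod (fun (j : Fin n) (t : ℝ) => ee (t * m j))]
  simp only [int_ee]
  split_ifs with h
  · exact Finset.prod_eq_one fun j _ => by rw [if_pos (h j)]
  · push Not at h
    obtain ⟨j, hj⟩ := h
    exact Finset.prod_eq_zero (Finset.mem_univ j) (if_neg hj)

private lemma cont_ee {α : Type*} [TopologicalSpace α] {f : α → ℝ} (hf : Continuous f) :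
    Continuous fun x => ee (f x) := by
  unfold ee
  fun_prop

theorem ks_OR : T_OR := by
  intro k d L n y
  classical
  set m : (Fin d → ℤ) → Fin n → ℤ := fun x j =>
    ((pw k (x - y j.succ) : ℕ) : ℤ) - ((pw k (x - y 0) : ℕ) : ℤ) with hm
  -- the indicator
  have hind : ∀ x : Fin d → ℤ, (∀ j, pw k (x - y j) = pw k (x - y 0)) ↔ ∀ j, m x j = 0 := by
    intro x
    constructor
    · intro h j
      rw [hm]
      simp only
      rw [h j.succ]
      ring
    · intro h j
      refine Fin.cases rfl (fun j => ?_) j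
      have := h j
      rw [hm] at this
      simp only at this
      have h2 : ((pw k (x - y j.succ) : ℕ) : ℤ) = ((pw k (x - y 0) : ℕ) : ℤ) := by linarith
      exact_mod_cast h2
  -- factorisation
  have hfac : ∀ τ : Fin n → ℝ, ∑ x ∈ cell d L, ee (∑ j, τ j * m x j) =
      ∏ i, Sx k L n τ (fun j => y j i) := by
    intro τ
    unfold Sx cell
    rw [Finset.prod_univ_sum]
    refine Finset.sum_congr rfl fun x _ => ?_
    rw [← ee_sum]
    congr 1
    rw [Finset.sum_comm]
    refine Finset.sum_congr rfl fun j _ => ?_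
    rw [← Finset.mul_sum, Finset.sum_sub_distrib]
    congr 1
    simp only [hm, Int.cast_sub, pw, Nat.cast_sum, Pi.sub_apply, Int.cast_sum, Int.cast_natCast]
  have hcard : (((cell d L).filter (fun x => ∀ j, pw k (x - y j) = pw k (x - y 0))).card : ℂ) =
      ∫ τ in Set.Icc (0 : Fin n → ℝ) 1, ∏ i, Sx k L n τ (fun j => y j i) := by
    simp only [← hfac]
    rw [integral_finsetSum]
    · simp only [int_ee_pi]
      rw [← Finset.sum_filter, Finset.sum_const, nsmul_eq_mul, mul_one]
      congr 2
      ext x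
      simp only [Finset.mem_filter]
      rw [hind x]
    · intro x _
      exact (cont_ee (by fun_prop)).integrableOn_Icc
  have h1 : (((cell d L).filter (fun x => ∀ j, pw k (x - y j) = pw k (x - y 0))).card : ℝ) =
      ‖(((cell d L).filter (fun x => ∀ j, pw k (x - y j) = pw k (x - y 0))).card : ℂ)‖ := by
    rw [Complex.norm_natCast]
  rw [h1, hcard]
  refine (norm_integral_le_integral_norm _).trans (le_of_eq ?_)
  simp only [norm_prod]

end Pool.Agent.H31.KS
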