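import Pool.Agent.H98.KS.Targets1

/-!
# Sharper recurrence lemma (module RLp)
-/

open scoped BigOperators

namespace Pool.Agent.H31.KS

open Pool.Agent.H98.KS

theorem ks_RLp : T_RLp := by
  intro L β ρ ε δ S hL hε hδ hδ1 hSL hcard hS hεδ hδL hεL
  have hL0 : 0 < L := by linarith
  set n : ℕ := ⌊8 * L⌋₊ with hn
  have hn1 : (n : ℝ) ≤ 8 * L := Nat.floor_le (by linarith)
  have hn2 : 8 * L < n + 1 := Nat.lt_floor_add_one _
  have hn0 : 0 < n := by
    have : (0 : ℝ) < n := by linarith
    exact_mod_cast this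
  obtain ⟨r, hr1, hr2⟩ := Real.exists_rat_abs_sub_le_and_den_le β hn0
  have hq0 : 0 < r.den := r.den_pos
  have hqR : (0 : ℝ) < r.den := by exact_mod_cast hq0
  have hqL : (r.den : ℝ) ≤ 8 * L := le_trans (by exact_mod_cast hr2) hn1
  set q : ℕ := r.den with hq
  set a : ℤ := r.num with ha
  set z : ℝ := β - r with hz
  have hra : (r : ℝ) = a / q := by
    rw [Rat.cast_def]
  have hβ : (q : ℝ) * β = a + q * z := by
    rw [hz, hra]
    field_simp
    ring
  have hzb : (q : ℝ) * |z| ≤ 1 / (8 * L) := by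
    have h1 : (q : ℝ) * |z| ≤ q * (1 / (((n : ℝ) + 1) * q)) :=
      mul_le_mul_of_nonneg_left hr1 hqR.le
    have h2 : (q : ℝ) * (1 / (((n : ℝ) + 1) * q)) = 1 / ((n : ℝ) + 1) := by
      field_simp
    rw [h2] at h1
    exact h1.trans (one_div_le_one_div_of_le (by linarith) hn2.le)
  have hcop : IsCoprime (q : ℤ) a := by
    have h1 : Nat.Coprime a.natAbs q := r.reduced
    have h2 : IsCoprime a (q : ℤ) := by
      rw [Int.isCoprime_iff_gcd_eq_one]
      simpa [Int.gcd] using h1
    exact h2.symm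
  -- the key identity
  have key : ∀ h ∈ S, ∀ h' ∈ S, a * (h - h') =
      q * (round (β * h + ρ) - round (β * h' + ρ)) := by
    intro h hh h' hh'
    have e1 : |β * h + ρ - round (β * h + ρ)| ≤ ε := hS h hh
    have e2 : |β * h' + ρ - round (β * h' + ρ)| ≤ ε := hS h' hh'
    set u : ℤ := round (β * h + ρ) with hu
    set v : ℤ := round (β * h' + ρ) with hv
    have e3 : |(h : ℝ) - h'| ≤ 2 * L := by
      have := abs_sub (h : ℝ) h'
      have h1 := hSL h hh
      have h2 := hSL h' hh'
      linarith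
    have e4 : |((a * (h - h') - q * (u - v) : ℤ) : ℝ)| < 1 := by
      have h1 : ((a * (h - h') - q * (u - v) : ℤ) : ℝ) =
          q * ((β * h + ρ - u) - (β * h' + ρ - v)) - (q * z) * ((h : ℝ) - h') := by
        push_cast
        have h2 : (a : ℝ) = q * β - q * z := by linarith
        rw [h2]
        ring
      rw [h1]
      have h3 : |(q : ℝ) * ((β * h + ρ - u) - (β * h' + ρ - v))| ≤ q * (2 * ε) := by
        rw [abs_mul, abs_of_pos hqR]
        refine mul_le_mul_of_nonneg_left ?_ hqR.le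
        have := abs_sub (β * h + ρ - u) (β * h' + ρ - v)
        linarith
      have h4 : |(q * z) * ((h : ℝ) - h')| ≤ 1 / (8 * L) * (2 * L) := by
        rw [abs_mul, abs_mul, abs_of_pos hqR]
        exact mul_le_mul hzb e3 (abs_nonneg _) (by positivity)
      have h5 : 1 / (8 * L) * (2 * L) = 1 / 4 := by
        field_simp
        norm_num
      have h6 : (q : ℝ) * (2 * ε) ≤ 1 / 2 := by
        have h7 : (q : ℝ) * (2 * ε) ≤ 8 * L * (2 * ε) :=
          mul_le_mul_of_nonneg_right hqL (by linarith)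
        nlinarith
      have h8 := abs_sub ((q : ℝ) * ((β * h + ρ - u) - (β * h' + ρ - v)))
        ((q * z) * ((h : ℝ) - h'))
      linarith
    have e5 : a * (h - h') - q * (u - v) = 0 := by
      rw [← Int.abs_lt_one_iff]
      exact_mod_cast e4
    linarith
  have hdvd : ∀ h ∈ S, ∀ h' ∈ S, (q : ℤ) ∣ h - h' := by
    intro h hh h' hh'
    have h1 : (q : ℤ) ∣ a * (h - h') := ⟨_, key h hh h' hh'⟩
    exact hcop.dvd_of_dvd_mul_left h1
  -- the extreme elements
  have hcard2 : (2 : ℝ) ≤ S.card := hδL.trans hcard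
  have hne : S.Nonempty := by
    rw [← Finset.card_pos]
    have : (0 : ℝ) < S.card := by linarith
    exact_mod_cast this
  set x : ℤ := S.min' hne with hx
  set y : ℤ := S.max' hne with hy
  have hxS : x ∈ S := S.min'_mem hne
  have hyS : y ∈ S := S.max'_mem hne
  obtain ⟨t, ht⟩ := hdvd y hyS x hxS
  have hxy : x ≤ y := S.min'_le y hyS
  have hqZ : (0 : ℤ) < q := by exact_mod_cast hq0
  have ht0 : 0 ≤ t := by
    by_contra h
    push Not at h
    have : (q : ℤ) * t < 0 := mul_neg_of_pos_of_neg hqZ h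
    linarith
  have hsub : S ⊆ (Finset.Icc 0 t).image (fun k => x + q * k) := by
    intro h hh
    obtain ⟨k, hk⟩ := hdvd h hh x hxS
    rw [Finset.mem_image]
    refine ⟨k, ?_, by linarith⟩
    rw [Finset.mem_Icc]
    have h1 : x ≤ h := S.min'_le h hh
    have h2 : h ≤ y := S.le_max' h hh
    constructor
    · by_contra hk0
      push Not at hk0
      have : (q : ℤ) * k < 0 := mul_neg_of_pos_of_neg hqZ hk0
      linarith
    · have h3 : (q : ℤ) * k ≤ q * t := by linarith
      exact le_of_mul_le_mul_left h3 hqZ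
  have hc1 : (S.card : ℤ) ≤ t + 1 := by
    have h1 := (Finset.card_le_card hsub).trans Finset.card_image_le
    rw [Int.card_Icc] at h1
    have h2 : ((t + 1 - 0).toNat : ℤ) = t + 1 := by
      rw [Int.toNat_of_nonneg (by linarith)]
      ring
    have h3 : (S.card : ℤ) ≤ ((t + 1 - 0).toNat : ℤ) := by exact_mod_cast h1
    linarith
  have hc2 : (S.card : ℝ) ≤ t + 1 := by exact_mod_cast hc1
  have hD : ((y : ℝ) - x) = q * t := by exact_mod_cast ht
  have ht2 : δ * L / 2 ≤ (t : ℝ) := by linarith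
  have ht3 : (0 : ℝ) < t := lt_of_lt_of_le (by positivity) ht2
  have hD2 : (q : ℝ) * t ≤ 2 * L := by
    rw [← hD]
    have h1 := abs_le.1 (hSL x hxS)
    have h2 := abs_le.1 (hSL y hyS)
    linarith
  refine ⟨q, hq0, ?_, ?_⟩
  · rw [le_div_iff₀ hδ]
    have h1 : (q : ℝ) * (δ * L / 2) ≤ 2 * L := (mul_le_mul_of_nonneg_left ht2 hqR.le).trans hD2
    have h2 : (q : ℝ) * δ * L ≤ 4 * L := by linarith
    exact le_of_mul_le_mul_right h2 hL0
  · -- the distance
    have h1 : dn (q * β) ≤ |(q : ℝ) * β - a| := round_le _ a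
    have h2 : |(q : ℝ) * β - a| = q * |z| := by
      rw [hβ, add_sub_cancel_left, abs_mul, abs_of_pos hqR]
    have h3 : |z| * (q * t) ≤ 2 * ε := by
      have e0 := key y hyS x hxS
      have e1 : |β * y + ρ - round (β * y + ρ)| ≤ ε := hS y hyS
      have e2 : |β * x + ρ - round (β * x + ρ)| ≤ ε := hS x hxS
      set u : ℤ := round (β * y + ρ) with hu
      set v : ℤ := round (β * x + ρ) with hv
      have e3 : (a : ℝ) * ((y : ℝ) - x) = q * ((u : ℝ) - v) := by exact_mod_cast e0
      have e4 : (q : ℝ) * (z * (q * t)) =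
          q * ((β * y + ρ - u) - (β * x + ρ - v)) := by
        have h4 : (q : ℝ) * z = q * β - a := by linarith
        calc (q : ℝ) * (z * (q * t)) = (q * z) * ((y : ℝ) - x) := by rw [hD]; ring
          _ = q * β * ((y : ℝ) - x) - a * ((y : ℝ) - x) := by rw [h4]; ring
          _ = _ := by rw [e3]; ring
      have e5 : z * (q * t) = (β * y + ρ - u) - (β * x + ρ - v) :=
        mul_left_cancel₀ hqR.ne' e4
      have e6 : |z * (q * t)| ≤ 2 * ε := by
        rw [e5]
        have := abs_sub (β * y + ρ - u) (β * x + ρ - v)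
        linarith
      rwa [abs_mul, abs_of_nonneg (by positivity : (0 : ℝ) ≤ q * t)] at e6
    refine h1.trans (h2.le.trans ?_)
    rw [le_div_iff₀ (by positivity)]
    have h4 : (q : ℝ) * |z| * t ≤ 2 * ε := by linarith
    have h5 : (q : ℝ) * |z| * (δ * L / 2) ≤ q * |z| * t :=
      mul_le_mul_of_nonneg_left ht2 (by positivity)
    linarith

end Pool.Agent.H31.KS
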